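import Pool.Agent.H64.K2.Plk2

/-!
# Kinematics of planks

Change of the time, of the frame and of the precision in the labels of the operation `Fam.plk`;
displacement between two lines of one fan in the frame of another time.
-/

set_option autoImplicit false

namespace Pool.KA

open Finset Real
open Pool.Agent.H49.Ent Pool.Agent.H32.Dense Pool.STK

variable {m J : ℕ}

/-- The position at the time `s`. -/
noncomputable def Fam.xa (F : Fam m J) (s : ℝ) (ω : F.Ω) (i : Fin m) : ℝ :=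
  F.u ω i + s * F.d ω i

namespace Kin

theorem xa_t (F : Fam m J) (ω : F.Ω) : F.xa (F.t ω) ω = F.x ω := rfl

theorem xa_T1 (F : Fam m J) (w : ℕ) (ω : F.Ω) : F.xa ((F.T1 w ω : ℝ) / 2 ^ w) ω = F.x1 w ω := rfl

theorem xa_add (F : Fam m J) (s s' : ℝ) (ω : F.Ω) (i : Fin m) :
    F.xa s' ω i = F.xa s ω i + (s' - s) * F.d ω i := by
  unfold Fam.xa; ring

/-- (K1) Change of the frame. -/
theorem pco_frame (lam : ℕ) (i0 : Fin m) (z z' x : Fin m → ℝ) (i : Fin m) :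
    pco lam i0 z' x i = pco lam i0 z x i - (if i = i0 then 0 else 2 ^ lam * (z' i - z i) * x i0) := by
  unfold pco
  split_ifs with h
  · ring
  · ring

/-- Change of the precision. -/
theorem pco_prec {lam K : ℕ} {i0 : Fin m} (z x : Fin m → ℝ) {i : Fin m} (hi : i ≠ i0) :
    pco (lam + K) i0 z x i = 2 ^ K * pco lam i0 z x i := by
  unfold pco
  rw [if_neg hi, if_neg hi, pow_add]
  ring

theorem pco_chart (lam : ℕ) {i0 : Fin m} (z x : Fin m → ℝ) : pco lam i0 z x i0 = x i0 := by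
  unfold pco
  rw [if_pos rfl]

/-- (K2) The position in the plank at any time of the window. -/
theorem plk_xa (F : Fam m J) (w lam : ℕ) (i0 : Fin m) (z : F.Ω → Fin m → ℝ) (ω : F.Ω) (s : ℝ)
    (i : Fin m) : 2 ^ w * pco lam i0 (z ω) (F.xa (((F.T1 w ω : ℝ) + s) / 2 ^ w) ω) i =
      (F.plk w lam i0 z).xa s ω i + F.pcl w lam i0 z ω i + s * F.pvl lam i0 z ω i := by
  have h1 : F.xa (((F.T1 w ω : ℝ) + s) / 2 ^ w) ω =
      fun j => F.x1 w ω j + (s * (2 ^ w)⁻¹) * F.d ω j := by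
    funext j
    unfold Fam.xa Fam.x1
    ring
  have h2 : (F.plk w lam i0 z).xa s ω i = (F.plk w lam i0 z).u ω i +
    s * (F.plk w lam i0 z).d ω i := rfl
  rw [h1, Plk.pco_add_mul, mul_add, Plk.pcl_eq, Plk.pvl_eq F w, h2]
  have h3 : (2 : ℝ) ^ w ≠ 0 := by positivity
  field_simp
  ring

/-- (K2') Two times of one window: the displacement is the velocity block. -/
theorem plk_xa_sub (F : Fam m J) (w lam : ℕ) (i0 : Fin m) (z : F.Ω → Fin m → ℝ) (ω : F.Ω)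
    (s s' : ℝ) (i : Fin m) : (F.plk w lam i0 z).xa s' ω i - (F.plk w lam i0 z).xa s ω i =
      (s' - s) * (F.plk w lam i0 z).d ω i := by
  have h := xa_add (F.plk w lam i0 z) s s' ω i
  linarith

/-- (K4) **Mates.** Two lines meet at the time `t₁`, their directions lie within `r` of a line with
slope `e` over the chart coordinate. At the time `t₀`, in the frame `z`, they differ by the turn of
the frames times the difference of the chart velocities. -/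
theorem mates (F : Fam m J) {t₀ t₁ : ℝ} {ω₀ ω₁ : F.Ω} (hx : F.xa t₁ ω₀ = F.xa t₁ ω₁)
    {i0 : Fin m} {e n : Fin m → ℝ} {r : ℝ} (h0 : ∀ j, |F.d ω₀ j - e j * F.d ω₀ i0 - n j| ≤ r)
    (h1 : ∀ j, |F.d ω₁ j - e j * F.d ω₁ i0 - n j| ≤ r) (lam : ℕ) (z : Fin m → ℝ) {j : Fin m}
    (hj : j ≠ i0) :
    |(pco lam i0 z (F.xa t₀ ω₁) j - pco lam i0 z (F.xa t₀ ω₀) j) -
      2 ^ lam * ((t₀ - t₁) * (e j - z j) * (F.d ω₁ i0 - F.d ω₀ i0))| ≤
      2 ^ lam * (|t₀ - t₁| * (2 * r)) := by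
  have e1 := fun k => xa_add F t₁ t₀ ω₀ k
  have e2 := fun k => xa_add F t₁ t₀ ω₁ k
  unfold pco
  rw [if_neg hj, if_neg hj, e1 j, e1 i0, e2 j, e2 i0, hx]
  have e3 : (2 ^ lam * (F.xa t₁ ω₁ j + (t₀ - t₁) * F.d ω₁ j -
      z j * (F.xa t₁ ω₁ i0 + (t₀ - t₁) * F.d ω₁ i0)) -
      2 ^ lam * (F.xa t₁ ω₁ j + (t₀ - t₁) * F.d ω₀ j -
      z j * (F.xa t₁ ω₁ i0 + (t₀ - t₁) * F.d ω₀ i0))) -
      2 ^ lam * ((t₀ - t₁) * (e j - z j) * (F.d ω₁ i0 - F.d ω₀ i0)) =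
      2 ^ lam * ((t₀ - t₁) * ((F.d ω₁ j - e j * F.d ω₁ i0 - n j) -
        (F.d ω₀ j - e j * F.d ω₀ i0 - n j))) := by ring
  rw [e3, abs_mul, abs_of_pos (by positivity : (0 : ℝ) < 2 ^ lam), abs_mul]
  refine mul_le_mul_of_nonneg_left (mul_le_mul_of_nonneg_left ?_ (abs_nonneg _)) (by positivity)
  have h2 := abs_sub (F.d ω₁ j - e j * F.d ω₁ i0 - n j) (F.d ω₀ j - e j * F.d ω₀ i0 - n j)
  linarith [h0 j, h1 j]

/-- (K4') Mates in one plank, in plank coordinates: `s₀`, `s₁` are times in units of the window. -/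
theorem mates_plk (F : Fam m J) {w lam : ℕ} {i0 : Fin m} {z : F.Ω → Fin m → ℝ} {ω₀ ω₁ : F.Ω}
    (hlab : F.plab w lam i0 z ω₀ = F.plab w lam i0 z ω₁) {s₀ s₁ : ℝ}
    (hx : (F.plk w lam i0 z).xa s₁ ω₀ = (F.plk w lam i0 z).xa s₁ ω₁)
    {e n : Fin m → ℝ} {r : ℝ} (h0 : ∀ j, |F.d ω₀ j - e j * F.d ω₀ i0 - n j| ≤ r)
    (h1 : ∀ j, |F.d ω₁ j - e j * F.d ω₁ i0 - n j| ≤ r) {j : Fin m} (hj : j ≠ i0) :
    |((F.plk w lam i0 z).xa s₀ ω₁ j - (F.plk w lam i0 z).xa s₀ ω₀ j) -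
      (s₀ - s₁) * (2 ^ lam * (e j - z ω₀ j)) *
        ((F.plk w lam i0 z).d ω₁ i0 - (F.plk w lam i0 z).d ω₀ i0)| ≤
      |s₀ - s₁| * (2 ^ lam * (2 * r)) := by
  have g1 := congrFun hx j
  have a0 := xa_add (F.plk w lam i0 z) s₁ s₀ ω₀ j
  have a1 := xa_add (F.plk w lam i0 z) s₁ s₀ ω₁ j
  have h5 := Prod.ext_iff.mp (Prod.ext_iff.mp hlab).1
  have b1 : z ω₀ = z ω₁ := (Prod.ext_iff.mp h5.1).2
  have b3 : F.pvl lam i0 z ω₀ = F.pvl lam i0 z ω₁ := (Prod.ext_iff.mp h5.2).2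
  have v0 := Plk.pvl_eq F w lam i0 z ω₀
  have v1 := Plk.pvl_eq F w lam i0 z ω₁
  have v0j := v0 j
  have v1j := v1 j
  have v0i := v0 i0
  have v1i := v1 i0
  rw [← b3] at v1j v1i
  rw [← b1] at v1j v1i
  unfold pco at v0j v1j v0i v1i
  rw [if_neg hj] at v0j v1j
  rw [if_pos rfl] at v0i v1i
  have e0 : (F.plk w lam i0 z).d ω₁ i0 - (F.plk w lam i0 z).d ω₀ i0 =
    F.d ω₁ i0 - F.d ω₀ i0 := by linarith
  have e1 : (F.plk w lam i0 z).d ω₁ j - (F.plk w lam i0 z).d ω₀ j =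
    2 ^ lam * (F.d ω₁ j - z ω₀ j * F.d ω₁ i0) - 2 ^ lam * (F.d ω₀ j - z ω₀ j * F.d ω₀ i0) := by
    linarith
  have e3 : ((F.plk w lam i0 z).xa s₀ ω₁ j - (F.plk w lam i0 z).xa s₀ ω₀ j) -
      (s₀ - s₁) * (2 ^ lam * (e j - z ω₀ j)) *
        ((F.plk w lam i0 z).d ω₁ i0 - (F.plk w lam i0 z).d ω₀ i0) =
      (s₀ - s₁) * (2 ^ lam * ((F.d ω₁ j - e j * F.d ω₁ i0 - n j) -
        (F.d ω₀ j - e j * F.d ω₀ i0 - n j))) := by
    rw [a0, a1, g1, e0]
    have : (F.plk w lam i0 z).xa s₁ ω₁ j + (s₀ - s₁) * (F.plk w lam i0 z).d ω₁ j -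
        ((F.plk w lam i0 z).xa s₁ ω₁ j + (s₀ - s₁) * (F.plk w lam i0 z).d ω₀ j) =
        (s₀ - s₁) * ((F.plk w lam i0 z).d ω₁ j - (F.plk w lam i0 z).d ω₀ j) := by ring
    rw [this, e1]
    ring
  rw [e3, abs_mul, abs_mul, abs_of_pos (by positivity : (0 : ℝ) < 2 ^ lam)]
  refine mul_le_mul_of_nonneg_left (mul_le_mul_of_nonneg_left ?_ (by positivity)) (abs_nonneg _)
  have h2 := abs_sub (F.d ω₁ j - e j * F.d ω₁ i0 - n j) (F.d ω₀ j - e j * F.d ω₀ i0 - n j)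
  linarith [h0 j, h1 j]

/-! ### Labels: change of frame, precision and window -/

theorem floor_pow_div (K : ℕ) (y : ℝ) : ⌊(2 : ℝ) ^ K * y⌋ / 2 ^ K = ⌊y⌋ := by
  have h1 := Int.floor_div_natCast ((2 : ℝ) ^ K * y) (2 ^ K)
  have h2 : (2 : ℝ) ^ K ≠ 0 := by positivity
  have h3 : (2 : ℝ) ^ K * y / ((2 ^ K : ℕ) : ℝ) = y := by
    push_cast
    field_simp
  rw [h3] at h1
  rw [h1]
  push_cast
  rfl

/-- (K5) Exact nestedness in the precision: cells of a vector. -/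
theorem fl_prec (g lam K : ℕ) (i0 : Fin m) (z x : Fin m → ℝ) {j : Fin m} (hj : j ≠ i0) :
    fl g (pco lam i0 z x) j = fl g (pco (lam + K) i0 z x) j / 2 ^ K := by
  have h1 : fl g (pco (lam + K) i0 z x) j = ⌊(2 : ℝ) ^ K * (2 ^ g * pco lam i0 z x j)⌋ := by
    change ⌊2 ^ g * pco (lam + K) i0 z x j⌋ = _
    rw [pco_prec z x hj]
    congr 1
    ring
  rw [h1, floor_pow_div]
  rfl

theorem fl_chart (g lam lam' : ℕ) (i0 : Fin m) (z z' x : Fin m → ℝ) :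
    fl g (pco lam i0 z x) i0 = fl g (pco lam' i0 z' x) i0 := by
  change ⌊2 ^ g * pco lam i0 z x i0⌋ = ⌊2 ^ g * pco lam' i0 z' x i0⌋
  rw [pco_chart, pco_chart]

/-- (K5) The label of lower precision is a function of the label of higher precision. -/
theorem plab_prec (F : Fam m J) {w lam K : ℕ} {i0 : Fin m} {z : F.Ω → Fin m → ℝ} {ω ω' : F.Ω}
    (h : F.plab w (lam + K) i0 z ω = F.plab w (lam + K) i0 z ω') :
    F.plab w lam i0 z ω = F.plab w lam i0 z ω' := by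
  have h4 := Prod.ext_iff.mp h
  have h5 := Prod.ext_iff.mp h4.1
  have b0 : F.T1 w ω = F.T1 w ω' := (Prod.ext_iff.mp h5.1).1
  have b1 : z ω = z ω' := (Prod.ext_iff.mp h5.1).2
  have b2 : F.pcl w (lam + K) i0 z ω = F.pcl w (lam + K) i0 z ω' := (Prod.ext_iff.mp h5.2).1
  have b3 : F.pvl (lam + K) i0 z ω = F.pvl (lam + K) i0 z ω' := (Prod.ext_iff.mp h5.2).2
  have b4 : F.Z ω = F.Z ω' := h4.2
  have c2 : F.pcl w lam i0 z ω = F.pcl w lam i0 z ω' := by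
    funext j
    by_cases hj : j = i0
    · subst hj
      have := congrFun b2 j
      unfold Fam.pcl at this ⊢
      rwa [fl_chart w (lam + K) lam j _ (z ω), fl_chart w (lam + K) lam j _ (z ω')] at this
    · unfold Fam.pcl at b2 ⊢
      rw [fl_prec w lam K i0 _ _ hj, fl_prec w lam K i0 _ _ hj, b2]
  have c3 : F.pvl lam i0 z ω = F.pvl lam i0 z ω' := by
    funext j
    by_cases hj : j = i0
    · subst hj
      have := congrFun b3 j
      unfold Fam.pvl at this ⊢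
      rwa [fl_chart 0 (lam + K) lam j _ (z ω), fl_chart 0 (lam + K) lam j _ (z ω')] at this
    · unfold Fam.pvl at b3 ⊢
      rw [fl_prec 0 lam K i0 _ _ hj, fl_prec 0 lam K i0 _ _ hj, b3]
  unfold Fam.plab
  rw [b0, b1, c2, c3, b4]

/-- (K3) Frames which differ by `C 2 ^ (-lam)`: the cells in one frame give the cells in the
other frame up to bounded differences. -/
theorem fl_frame {g lam : ℕ} {i0 : Fin m} {z z' x y : Fin m → ℝ} {C : ℝ}
    (hz : ∀ j, 2 ^ lam * |z' j - z j| ≤ C) (hC : 0 ≤ C)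
    (h : fl g (pco lam i0 z x) = fl g (pco lam i0 z y)) (j : Fin m) :
    |((fl g (pco lam i0 z' x) j - fl g (pco lam i0 z' y) j : ℤ) : ℝ)| ≤ C + 2 := by
  have h1 := Plk.abs_sub_lt_of_floor (congrFun h j :
    ⌊2 ^ g * pco lam i0 z x j⌋ = ⌊2 ^ g * pco lam i0 z y j⌋)
  have h2 := Plk.abs_sub_lt_of_floor (congrFun h i0 :
    ⌊2 ^ g * pco lam i0 z x i0⌋ = ⌊2 ^ g * pco lam i0 z y i0⌋)
  change |2 ^ g * pco lam i0 z x i0 - 2 ^ g * pco lam i0 z y i0| ≤ 1 at h2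
  change |2 ^ g * pco lam i0 z x j - 2 ^ g * pco lam i0 z y j| ≤ 1 at h1
  rw [pco_chart, pco_chart, ← mul_sub] at h2
  change |((⌊2 ^ g * pco lam i0 z' x j⌋ - ⌊2 ^ g * pco lam i0 z' y j⌋ : ℤ) : ℝ)| ≤ C + 2
  have h3 : |2 ^ g * pco lam i0 z' x j - 2 ^ g * pco lam i0 z' y j| ≤ C + 1 := by
    rw [pco_frame lam i0 z z' x j, pco_frame lam i0 z z' y j]
    by_cases hj : j = i0
    · rw [if_pos hj, if_pos hj, sub_zero, sub_zero]
      linarith
    · rw [if_neg hj, if_neg hj]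
      have e1 : 2 ^ g * (pco lam i0 z x j - 2 ^ lam * (z' j - z j) * x i0) -
          2 ^ g * (pco lam i0 z y j - 2 ^ lam * (z' j - z j) * y i0) =
          (2 ^ g * pco lam i0 z x j - 2 ^ g * pco lam i0 z y j) -
            2 ^ lam * (z' j - z j) * (2 ^ g * (x i0 - y i0)) := by ring
      rw [e1]
      have e2 : |2 ^ lam * (z' j - z j) * (2 ^ g * (x i0 - y i0))| ≤ C * 1 := by
        rw [abs_mul, abs_mul, abs_of_pos (by positivity : (0 : ℝ) < 2 ^ lam)]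
        exact mul_le_mul (hz j) h2 (abs_nonneg _) hC
      have e3 := abs_sub (2 ^ g * pco lam i0 z x j - 2 ^ g * pco lam i0 z y j)
        (2 ^ lam * (z' j - z j) * (2 ^ g * (x i0 - y i0)))
      linarith
  have h4 := Plk.floor_sub_lt h3
  linarith

/-- (K3) Positions in two near frames. -/
theorem CH_pX_frame {S : Type} (F : Fam m J) {g lam : ℕ} {i0 : Fin m} {z z' : F.Ω → Fin m → ℝ}
    {C : ℝ} (hC : 0 ≤ C) (hz : ∀ ω, 0 < F.p ω → ∀ j, 2 ^ lam * |z' ω j - z ω j| ≤ C)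
    (W : F.Ω → S) (hW : ∀ ω ω', 0 < F.p ω → 0 < F.p ω' → W ω = W ω' →
      z ω = z ω' ∧ z' ω = z' ω' ∧ F.pX lam i0 z g ω = F.pX lam i0 z g ω') :
    CH F.p (F.pX lam i0 z' g) W ≤ m * Real.log (2 * (C + 2) + 1) := by
  refine Plk.CH_vec_const F.isLaw _ W ?_
  intro ω ω' hω hω' h k
  obtain ⟨h1, h2, h3⟩ := hW ω ω' hω hω' h
  have h4 : fl g (pco lam i0 (z ω) (F.x ω)) = fl g (pco lam i0 (z ω) (F.x ω')) := by
    have h5 : fl g (pco lam i0 (z ω) (F.x ω)) = fl g (pco lam i0 (z ω') (F.x ω')) := h3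
    rw [h5, h1]
  have h6 := fl_frame (z' := z' ω) (hz ω hω) hC h4 k
  change |((fl g (pco lam i0 (z' ω) (F.x ω)) k - fl g (pco lam i0 (z' ω') (F.x ω')) k : ℤ) : ℝ)|
    ≤ C + 2
  rw [← h2]
  exact h6

/-- (K3) Labels in two near frames. -/
theorem CH_plab_frame {S : Type} (F : Fam m J) {w lam : ℕ} {i0 : Fin m}
    {z z' : F.Ω → Fin m → ℝ} {C : ℝ} (hC : 0 ≤ C)
    (hz : ∀ ω, 0 < F.p ω → ∀ j, 2 ^ lam * |z' ω j - z ω j| ≤ C)
    (W : F.Ω → S) (hW : ∀ ω ω', 0 < F.p ω → 0 < F.p ω' → W ω = W ω' →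
      F.plab w lam i0 z ω = F.plab w lam i0 z ω' ∧ z' ω = z' ω') :
    CH F.p (F.plab w lam i0 z') W ≤ 2 * (m * Real.log (2 * (C + 2) + 1)) := by
  have h0 := F.isLaw.nonneg
  have k1 : CH F.p (F.pcl w lam i0 z') W ≤ m * Real.log (2 * (C + 2) + 1) := by
    refine Plk.CH_vec_const F.isLaw _ W ?_
    intro ω ω' hω hω' h k
    obtain ⟨h1, h2⟩ := hW ω ω' hω hω' h
    have h5 := Prod.ext_iff.mp (Prod.ext_iff.mp h1).1
    have b1 : z ω = z ω' := (Prod.ext_iff.mp h5.1).2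
    have b2 : F.pcl w lam i0 z ω = F.pcl w lam i0 z ω' := (Prod.ext_iff.mp h5.2).1
    have h4 : fl w (pco lam i0 (z ω) (F.x1 w ω)) = fl w (pco lam i0 (z ω) (F.x1 w ω')) := by
      have h6 : fl w (pco lam i0 (z ω) (F.x1 w ω)) = fl w (pco lam i0 (z ω') (F.x1 w ω')) := b2
      rw [h6, b1]
    have h6 := fl_frame (z' := z' ω) (hz ω hω) hC h4 k
    change |((fl w (pco lam i0 (z' ω) (F.x1 w ω)) k -
      fl w (pco lam i0 (z' ω') (F.x1 w ω')) k : ℤ) : ℝ)| ≤ C + 2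
    rw [← h2]
    exact h6
  have k2 : CH F.p (F.pvl lam i0 z') W ≤ m * Real.log (2 * (C + 2) + 1) := by
    refine Plk.CH_vec_const F.isLaw _ W ?_
    intro ω ω' hω hω' h k
    obtain ⟨h1, h2⟩ := hW ω ω' hω hω' h
    have h5 := Prod.ext_iff.mp (Prod.ext_iff.mp h1).1
    have b1 : z ω = z ω' := (Prod.ext_iff.mp h5.1).2
    have b3 : F.pvl lam i0 z ω = F.pvl lam i0 z ω' := (Prod.ext_iff.mp h5.2).2
    have h4 : fl 0 (pco lam i0 (z ω) (F.d ω)) = fl 0 (pco lam i0 (z ω) (F.d ω')) := by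
      have h6 : fl 0 (pco lam i0 (z ω) (F.d ω)) = fl 0 (pco lam i0 (z ω') (F.d ω')) := b3
      rw [h6, b1]
    have h6 := fl_frame (z' := z' ω) (hz ω hω) hC h4 k
    change |((fl 0 (pco lam i0 (z' ω) (F.d ω)) k -
      fl 0 (pco lam i0 (z' ω') (F.d ω')) k : ℤ) : ℝ)| ≤ C + 2
    rw [← h2]
    exact h6
  have k3 : CH F.p (F.plab w lam i0 z') W ≤
      CH F.p (fun ω => (F.pcl w lam i0 z' ω, F.pvl lam i0 z' ω)) W := by
    have c1 := CH_le_add h0 (F.plab w lam i0 z') (fun ω => (F.pcl w lam i0 z' ω,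
      F.pvl lam i0 z' ω)) W
    have c2 : CH F.p (F.plab w lam i0 z') (fun ω => ((F.pcl w lam i0 z' ω,
        F.pvl lam i0 z' ω), W ω)) ≤ 0 := by
      refine (CH_eq_zero h0 ?_).le
      intro ω ω' hω hω' h
      have e1 := Prod.ext_iff.mp h
      have e2 := Prod.ext_iff.mp e1.1
      obtain ⟨h1, h2⟩ := hW ω ω' hω hω' e1.2
      have h4 := Prod.ext_iff.mp h1
      have h5 := Prod.ext_iff.mp h4.1
      have b0 : F.T1 w ω = F.T1 w ω' := (Prod.ext_iff.mp h5.1).1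
      have b4 : F.Z ω = F.Z ω' := h4.2
      have f1 : F.pcl w lam i0 z' ω = F.pcl w lam i0 z' ω' := e2.1
      have f2 : F.pvl lam i0 z' ω = F.pvl lam i0 z' ω' := e2.2
      unfold Fam.plab
      rw [b0, h2, f1, f2, b4]
    linarith
  have k4 : CH F.p (fun ω => (F.pcl w lam i0 z' ω, F.pvl lam i0 z' ω)) W ≤
      CH F.p (F.pcl w lam i0 z') W + CH F.p (F.pvl lam i0 z') W := by
    exact CH_subadd h0 (F.pcl w lam i0 z') (F.pvl lam i0 z') W
  linarith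

/-- (K6) Along a line `w + lam = const`: the cells of the shorter window with the lower precision
are given, up to bounded differences, by the label of the longer window with the higher precision
and the digits of the time (all coordinates but the chart coordinate). -/
theorem pcl_diag (F : Fam m J) {w K lam : ℕ} (h : w + K ≤ J) {i0 : Fin m}
    {z : F.Ω → Fin m → ℝ} {ω ω' : F.Ω}
    (hb : F.plab w (lam + K) i0 z ω = F.plab w (lam + K) i0 z ω')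
    (hT : F.T1 (w + K) ω = F.T1 (w + K) ω') {j : Fin m} (hj : j ≠ i0) :
    |((F.pcl (w + K) lam i0 z ω j - F.pcl (w + K) lam i0 z ω' j : ℤ) : ℝ)| ≤ 2 := by
  have h5 := Prod.ext_iff.mp (Prod.ext_iff.mp hb).1
  have b0 : F.T1 w ω = F.T1 w ω' := (Prod.ext_iff.mp h5.1).1
  have b1 : z ω = z ω' := (Prod.ext_iff.mp h5.1).2
  have b2 : F.pcl w (lam + K) i0 z ω = F.pcl w (lam + K) i0 z ω' := (Prod.ext_iff.mp h5.2).1
  have b3 : F.pvl (lam + K) i0 z ω = F.pvl (lam + K) i0 z ω' := (Prod.ext_iff.mp h5.2).2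
  have c1 := Plk.T1_plk F h (lam + K) i0 z ω
  have c2 := Plk.T1_plk F h (lam + K) i0 z ω'
  have c3 : (F.plk w (lam + K) i0 z).T1 K ω = (F.plk w (lam + K) i0 z).T1 K ω' := by
    rw [hT, b0] at c1
    omega
  obtain ⟨τ, hτ⟩ : ∃ τ : ℝ, τ = ((F.plk w (lam + K) i0 z).T1 K ω : ℝ) / 2 ^ K := ⟨_, rfl⟩
  have hτ0 : 0 ≤ τ := by rw [hτ]; positivity
  have hτ1 : τ < 1 := by
    rw [hτ, div_lt_one (by positivity)]
    have h1 : (F.plk w (lam + K) i0 z).T1 K ω < 2 ^ K := by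
      change F.T ω % 2 ^ (J - w) / 2 ^ (J - w - K) < 2 ^ K
      rw [Nat.div_lt_iff_lt_mul (by positivity), ← pow_add]
      have e1 : K + (J - w - K) = J - w := by omega
      rw [e1]
      exact Nat.mod_lt _ (by positivity)
    exact_mod_cast h1
  have key : ∀ ω'', z ω'' = z ω → (F.plk w (lam + K) i0 z).T1 K ω'' =
      (F.plk w (lam + K) i0 z).T1 K ω → F.T1 (w + K) ω'' = 2 ^ K * F.T1 w ω'' +
      (F.plk w (lam + K) i0 z).T1 K ω'' →
      2 ^ (w + K) * pco lam i0 (z ω'') (F.x1 (w + K) ω'') j =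
        2 ^ w * pco (lam + K) i0 (z ω'') (F.x1 w ω'') j +
          τ * pco (lam + K) i0 (z ω'') (F.d ω'') j := by
    intro ω'' _ hc hT''
    have e3 : F.x1 (w + K) ω'' = fun j => F.x1 w ω'' j + (τ * (2 ^ w)⁻¹) * F.d ω'' j := by
      funext j
      unfold Fam.x1
      rw [hT'', hτ, ← hc]
      push_cast
      have h2 : (2 : ℝ) ^ w ≠ 0 := by positivity
      have h3 : (2 : ℝ) ^ K ≠ 0 := by positivity
      rw [pow_add]
      field_simp
      ring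
    rw [e3, Plk.pco_add_mul, pco_prec (z ω'') (F.x1 w ω'') hj, pco_prec (z ω'') (F.d ω'') hj]
    have h2 : (2 : ℝ) ^ w ≠ 0 := by positivity
    rw [pow_add]
    field_simp
  have k1 := key ω rfl rfl c1
  have k2 := key ω' b1.symm c3.symm c2
  have f1 : |2 ^ w * pco (lam + K) i0 (z ω) (F.x1 w ω) j -
      2 ^ w * pco (lam + K) i0 (z ω') (F.x1 w ω') j| ≤ 1 :=
    Plk.abs_sub_lt_of_floor (congrFun b2 j)
  have f2 : |2 ^ 0 * pco (lam + K) i0 (z ω) (F.d ω) j -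
      2 ^ 0 * pco (lam + K) i0 (z ω') (F.d ω') j| ≤ 1 :=
    Plk.abs_sub_lt_of_floor (congrFun b3 j)
  rw [pow_zero, one_mul, one_mul] at f2
  have g1 := Int.floor_le (2 ^ (w + K) * pco lam i0 (z ω) (F.x1 (w + K) ω) j)
  have g2 := Int.lt_floor_add_one (2 ^ (w + K) * pco lam i0 (z ω) (F.x1 (w + K) ω) j)
  have g3 := Int.floor_le (2 ^ (w + K) * pco lam i0 (z ω') (F.x1 (w + K) ω') j)
  have g4 := Int.lt_floor_add_one (2 ^ (w + K) * pco lam i0 (z ω') (F.x1 (w + K) ω') j)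
  rw [k1] at g1 g2
  rw [k2] at g3 g4
  change |((⌊2 ^ (w + K) * pco lam i0 (z ω) (F.x1 (w + K) ω) j⌋ -
    ⌊2 ^ (w + K) * pco lam i0 (z ω') (F.x1 (w + K) ω') j⌋ : ℤ) : ℝ)| ≤ 2
  rw [k1, k2]
  have f3 : |τ * pco (lam + K) i0 (z ω) (F.d ω) j - τ * pco (lam + K) i0 (z ω') (F.d ω') j| < 1 ∨
      |τ * pco (lam + K) i0 (z ω) (F.d ω) j - τ * pco (lam + K) i0 (z ω') (F.d ω') j| = 0 := by
    rw [← mul_sub, abs_mul, abs_of_nonneg hτ0]
    rcases eq_or_lt_of_le (abs_nonneg (pco (lam + K) i0 (z ω) (F.d ω) j -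
      pco (lam + K) i0 (z ω') (F.d ω') j)) with h0 | h0
    · right
      rw [← h0, mul_zero]
    · left
      nlinarith
  have f4 : |τ * pco (lam + K) i0 (z ω) (F.d ω) j -
      τ * pco (lam + K) i0 (z ω') (F.d ω') j| < 1 := by
    rcases f3 with h0 | h0
    · exact h0
    · rw [h0]; norm_num
  rw [abs_le] at f1
  rw [abs_lt] at f4
  obtain ⟨A, hA⟩ : ∃ A, A = ⌊2 ^ w * pco (lam + K) i0 (z ω) (F.x1 w ω) j +
    τ * pco (lam + K) i0 (z ω) (F.d ω) j⌋ := ⟨_, rfl⟩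
  obtain ⟨B, hB⟩ : ∃ B, B = ⌊2 ^ w * pco (lam + K) i0 (z ω') (F.x1 w ω') j +
    τ * pco (lam + K) i0 (z ω') (F.d ω') j⌋ := ⟨_, rfl⟩
  rw [← hA] at g1 g2
  rw [← hB] at g3 g4
  rw [← hA, ← hB]
  have l1 : ((A - B : ℤ) : ℝ) < 3 := by push_cast; linarith [f1.1, f1.2, f4.1, f4.2]
  have l2 : (-3 : ℝ) < ((A - B : ℤ) : ℝ) := by push_cast; linarith [f1.1, f1.2, f4.1, f4.2]
  have l3 : A - B < 3 := by exact_mod_cast l1
  have l4 : -3 < A - B := by exact_mod_cast l2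
  have l5 : |A - B| ≤ 2 := by
    rw [abs_le]
    constructor <;> omega
  exact_mod_cast l5

/-- (K6) The label of the shorter window with the lower precision. -/
theorem CH_plab_diag {S : Type} (F : Fam m J) {w K lam : ℕ} (h : w + K ≤ J) {i0 : Fin m}
    {z : F.Ω → Fin m → ℝ} (W : F.Ω → S) (hW : ∀ ω ω', 0 < F.p ω → 0 < F.p ω' → W ω = W ω' →
      F.plab w (lam + K) i0 z ω = F.plab w (lam + K) i0 z ω' ∧
        F.T1 (w + K) ω = F.T1 (w + K) ω' ∧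
        F.pcl (w + K) lam i0 z ω i0 = F.pcl (w + K) lam i0 z ω' i0) :
    CH F.p (F.plab (w + K) lam i0 z) W ≤ m * Real.log 5 := by
  have h0 := F.isLaw.nonneg
  have k1 := Plk.CH_vec_const (c := 2) F.isLaw (F.pcl (w + K) lam i0 z) W ?_
  · have c1 := CH_le_add h0 (F.plab (w + K) lam i0 z) (F.pcl (w + K) lam i0 z) W
    have c2 : CH F.p (F.plab (w + K) lam i0 z) (fun ω => (F.pcl (w + K) lam i0 z ω, W ω)) = 0 := by
      refine CH_eq_zero h0 ?_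
      intro ω ω' hω hω' hh
      have e1 := Prod.ext_iff.mp hh
      obtain ⟨h1, h2, h3⟩ := hW ω ω' hω hω' e1.2
      have h4 := Prod.ext_iff.mp h1
      have h5 := Prod.ext_iff.mp h4.1
      have b1 : z ω = z ω' := (Prod.ext_iff.mp h5.1).2
      have b4 : F.Z ω = F.Z ω' := h4.2
      have f1 : F.pcl (w + K) lam i0 z ω = F.pcl (w + K) lam i0 z ω' := e1.1
      have f2 : F.pvl lam i0 z ω = F.pvl lam i0 z ω' := by
        have h6 := plab_prec F h1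
        exact (Prod.ext_iff.mp (Prod.ext_iff.mp (Prod.ext_iff.mp h6).1).2).2
      unfold Fam.plab
      rw [h2, b1, f1, f2, b4]
    norm_num at k1
    linarith
  · intro ω ω' hω hω' hh j
    obtain ⟨h1, h2, h3⟩ := hW ω ω' hω hω' hh
    by_cases hj : j = i0
    · subst hj
      rw [h3]
      simp
    · exact pcl_diag F h h1 h2 hj

end Kin

end Pool.KA
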